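import Mathlib
import Pool.Agent.H91.CS.CMAIN
import Pool.Agent.H32.RB.Main

/-!
# Rational maps with Collet-Eckmann critical values are limits of hyperbolic rational maps
-/

set_option autoImplicit false

namespace Pool.Agent.Results.MP_8f2e1c_an.CriticalValues

open Polynomial Filter Topology

/-- `f` is the rational map `P/Q` on the sphere. -/
def IsMap (f : OnePoint ℂ → OnePoint ℂ) (P Q : Polynomial ℂ) : Prop :=
  Continuous f ∧
    ∀ z : ℂ, Q.eval z ≠ 0 → f (OnePoint.some z) = OnePoint.some (P.eval z / Q.eval z)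

/-- `c` is a critical point of `f`. -/
def IsCritical (f : OnePoint ℂ → OnePoint ℂ) (c : OnePoint ℂ) : Prop :=
  ¬ ∃ U ∈ nhds c, Set.InjOn f U

/-- The orbit of `c` is attracted to an attracting cycle (words of the frozen statement
`S05373`). -/
def ToAttracting (f : OnePoint ℂ → OnePoint ℂ) (c : OnePoint ℂ) : Prop :=
  ∃ z : OnePoint ℂ, ∃ n : ℕ, 0 < n ∧ f^[n] z = z ∧
    (∃ U ∈ nhds z, ∀ w ∈ U,
      Filter.Tendsto (fun k : ℕ => f^[n * k] w) Filter.atTop (nhds z)) ∧
    Filter.Tendsto (fun k : ℕ => f^[n * k] c) Filter.atTop (nhds z)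

/-- The rational map `P/Q` is hyperbolic, in the words of the frozen statement `S05373`: every
critical point is attracted to an attracting periodic cycle. -/
def IsHyperbolic (P Q : Polynomial ℂ) : Prop :=
  ∃ f : OnePoint ℂ → OnePoint ℂ, IsMap f P Q ∧ ∀ c : OnePoint ℂ, IsCritical f c → ToAttracting f c

/-- The chordal distance of the Riemann sphere. -/
noncomputable def chordal : OnePoint ℂ → OnePoint ℂ → ℝ
  | OnePoint.some z, OnePoint.some w => ‖z - w‖ / (√(1 + ‖z‖ ^ 2) * √(1 + ‖w‖ ^ 2))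
  | OnePoint.some z, OnePoint.infty => 1 / √(1 + ‖z‖ ^ 2)
  | OnePoint.infty, OnePoint.some w => 1 / √(1 + ‖w‖ ^ 2)
  | OnePoint.infty, OnePoint.infty => 0

/-- The Collet-Eckmann condition at the point `x`: the derivatives of `f^n` at `x` in the chordal
metric grow exponentially, `|(f^n)'(x)| ≥ C q^n` with `C > 0`, `q > 1` (the local expansion rate is
the modulus of the derivative). -/
def ColletEckmannAt (f : OnePoint ℂ → OnePoint ℂ) (x : OnePoint ℂ) : Prop :=
  ∃ C q : ℝ, 0 < C ∧ 1 < q ∧ ∀ n : ℕ, ∀ᶠ y in 𝓝 x,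
    C * q ^ n * chordal x y ≤ chordal (f^[n] x) (f^[n] y)

theorem chord_eq (x y : OnePoint ℂ) : chordal x y = Pool.Agent.H35.EX.chord x y := by
  induction x using OnePoint.rec with
  | infty =>
    induction y using OnePoint.rec with
    | infty => rfl
    | coe y => rfl
  | coe x =>
    induction y using OnePoint.rec with
    | infty => rfl
    | coe y => rfl

/-- Let `d ≥ 2` and let `f = A/B` be a rational map of degree `d`, each critical point `c` of which is
attracted to an attracting cycle or has a critical value `f(c)` with the Collet-Eckmann condition (no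
condition on the recurrence, any multiplicities; the Julia set may be the whole sphere; different critical
orbits may meet), and let one critical point have an infinite orbit. Then `f` is a limit of hyperbolic
rational maps of degree `d`. -/
theorem result (d : ℕ) (hd : 2 ≤ d) (A B : Polynomial ℂ) (hcop : IsCoprime A B)
    (hdeg : max A.natDegree B.natDegree = d) (f : OnePoint ℂ → OnePoint ℂ) (hf : IsMap f A B)
    (hcrit : ∀ c : OnePoint ℂ, IsCritical f c → ToAttracting f c ∨ ColletEckmannAt f (f c))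
    (hinf : ∃ c : OnePoint ℂ, IsCritical f c ∧ (Set.range fun k : ℕ => f^[k] c).Infinite) :
    ∀ ε : ℝ, 0 < ε → ∃ A' B' : Polynomial ℂ, IsCoprime A' B' ∧
      max A'.natDegree B'.natDegree = d ∧
      (∀ i : ℕ, ‖A'.coeff i - A.coeff i‖ < ε ∧ ‖B'.coeff i - B.coeff i‖ < ε) ∧
      IsHyperbolic A' B' := by
  intro ε hε
  have hAd : A.natDegree ≤ d := hdeg ▸ le_max_left _ _
  have hBd : B.natDegree ≤ d := hdeg ▸ le_max_right _ _
  obtain ⟨v0, hv0⟩ : ∃ v0 : Pool.Agent.H79.Eul.E d,
      v0 = (((fun i => A.coeff i) : Fin (d + 1) → ℂ), ((fun i => B.coeff i) : Fin (d + 1) → ℂ)) :=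
    ⟨_, rfl⟩
  have e1 : Pool.Agent.H79.Eul.pol v0.1 = A := by rw [hv0]; exact Pool.Agent.H79.Eul.pol_cf hAd
  have e2 : Pool.Agent.H79.Eul.pol v0.2 = B := by rw [hv0]; exact Pool.Agent.H79.Eul.pol_cf hBd
  have hB0 : B ≠ 0 := Pool.Agent.H32.BT.den_ne_zero hcop (by omega)
  have hfr : f = Pool.Agent.H79.Par.Rf v0 := by
    unfold Pool.Agent.H79.Par.Rf
    rw [e1, e2]
    exact Pool.Agent.H32.RB.ext_eq hcop hB0 hf
  obtain ⟨w, hw1, hw2, hw3, hw4⟩ := Pool.Agent.H91.CS.cs_main hd (v0 := v0)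
    (by rw [e1, e2]; exact hcop) (by rw [e1, e2]; exact hdeg) (fun c hc => by
      rw [← hfr] at hc ⊢
      rcases hcrit c hc with ⟨z, n, h1, h2, h3, h4⟩ | ⟨C, q, h1, h2, h3⟩
      · exact Or.inl ⟨z, n, ⟨h1, h2, h3⟩, h4⟩
      · refine Or.inr ⟨C, q, h1, h2, fun n => ?_⟩
        filter_upwards [h3 n] with y hy
        rw [← chord_eq, ← chord_eq]
        exact hy)
    (by
      obtain ⟨c, hc, hi⟩ := hinf
      refine ⟨c, ?_, ?_⟩
      · rw [← hfr]; exact hc
      · rw [← hfr]; exact hi) hε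
  refine ⟨Pool.Agent.H79.Eul.pol w.1, Pool.Agent.H79.Eul.pol w.2, hw2, hw3, fun i => ?_, ?_⟩
  · have h0 : ∀ (u u' : Fin (d + 1) → ℂ), ‖u - u'‖ < ε →
        ‖(Pool.Agent.H79.Eul.pol u).coeff i - (Pool.Agent.H79.Eul.pol u').coeff i‖ < ε := by
      intro u u' h
      by_cases hi : i < d + 1
      · have h1 := Pool.Agent.H79.Eul.pol_coeff u ⟨i, hi⟩
        have h2 := Pool.Agent.H79.Eul.pol_coeff u' ⟨i, hi⟩
        simp only at h1 h2
        rw [h1, h2]
        exact (norm_le_pi_norm (u - u') ⟨i, hi⟩).trans_lt h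
      · rw [coeff_eq_zero_of_natDegree_lt, coeff_eq_zero_of_natDegree_lt, sub_zero, norm_zero]
        · exact hε
        · have := Pool.Agent.H79.Eul.pol_deg u'
          omega
        · have := Pool.Agent.H79.Eul.pol_deg u
          omega
    rw [Metric.mem_ball, dist_eq_norm] at hw1
    have h1 : ‖(w - v0).1‖ < ε := (norm_fst_le _).trans_lt hw1
    have h2 : ‖(w - v0).2‖ < ε := (norm_snd_le _).trans_lt hw1
    refine ⟨?_, ?_⟩
    · have := h0 w.1 v0.1 h1
      rw [e1] at this
      exact this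
    · have := h0 w.2 v0.2 h2
      rw [e2] at this
      exact this
  · obtain ⟨g, hg1, hg2, hg3⟩ := (Pool.Agent.H32.BT.hyp_iff hw2 (by rw [hw3]; omega)).2 hw4
    exact ⟨g, ⟨hg1, hg2⟩, hg3⟩

end Pool.Agent.Results.MP_8f2e1c_an.CriticalValues
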